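import Pool.Agent.R782.X3Fin

/-!
# The torsions of finite coverings of a closed aspherical `3`-manifold need not converge

`G = Heis × ℤ` is the product of the discrete Heisenberg group and an infinite cyclic group, and
`G = N 0 ⊇ N 1 ⊇ ⋯` is a chain of normal subgroups of finite index with trivial intersection.

The manifold `M` is the mapping torus of a homeomorphism of the closed orientable surface of genus
four. Its fundamental group is generated by `x_0, …, x_7` and `s`, with the relators
`s f(x_j) s⁻¹ x_j⁻¹` and `r = [x_0, x_1] [x_2, x_3] [x_4, x_5] [x_6, x_7]`, where `f` is an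
automorphism of the free group which fixes `r`; by the theorem of Dehn, Nielsen and Baer it is
induced by an orientation preserving homeomorphism of the surface. `φ` is a homomorphism from
`π_1 M` onto `G`. The chain complex of the `G`-cover of `M`, with one `0`-cell, `1`-cells `x_j, s`,
`2`-cells `s × x_j` and `r`, and one `3`-cell `s × r`, is `(torusCx f hf φ h).toCx`: its boundary
matrices are given by the generators, by the Fox derivatives of the relators, and by
`∂ (s × r) = (s - 1) r - ∑ (∂r/∂x_j) (s × x_j)`. The complex of the finite covering of `M` which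
corresponds to `N i` is `(torusCx f hf φ h).toCx.quot (N i)`.

The subgroups are `N i = Γ_i × n_i ℤ` with subgroups `Γ_i` of finite index of the Heisenberg group.
The torsions over `G / (Γ_i × 1)` oscillate. For a suitable sequence `n_i`, chosen by simultaneous
Diophantine approximation of the arguments of the zeros of a polynomial on the unit circle, the
torsions over `G / N i` differ from them by at most `1 / (i + 1)`; this needs no estimate of linear
forms in logarithms.
-/

namespace Pool.Agent.Results.MP_fa412c_gt.AsphericalFiniteCovers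

open Pool.Agent.TH630.Tor Pool.Agent.Helper993 Pool.Agent.Helper993.HeisDet Pool.Agent.R782
  Filter Topology

theorem result : ∃ (f : FreeGroup (Fin (2 * 4)) ≃* FreeGroup (Fin (2 * 4)))
    (hf : f (surfaceRel 4) = surfaceRel 4)
    (φ : FreeGroup (Fin (2 * 4 + 1)) →* Heis ℤ × Multiplicative ℤ)
    (h : ∀ j, φ (torusRel f j) = 1)
    (N : ℕ → Subgroup (Heis ℤ × Multiplicative ℤ)) (_ : ∀ i, (N i).Normal),
    N 0 = ⊤ ∧ Antitone N ∧ ⨅ i, N i = ⊥ ∧ (∀ i, (N i).FiniteIndex) ∧ Function.Surjective φ ∧
    (torusCx f hf φ h).toCx.DetL2Acyclic ∧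
    (∀ i n, 0 < FK.fkDet (((torusCx f hf φ h).toCx.quot (N i)).laplacian n)) ∧
    ∀ L : ℝ, ¬ Tendsto (fun i => ((torusCx f hf φ h).toCx.quot (N i)).l2torsion) atTop (𝓝 L) :=
  ⟨f8', f8'_rel, φ9, φ9_rel, chainF, chainF_normal, chainF_zero, chainF_anti, chainF_inf,
    fun _ => Subgroup.finiteIndex_of_finite_quotient, φ9_surj, acyclic_X3, pos_F, no_limit_F⟩

end Pool.Agent.Results.MP_fa412c_gt.AsphericalFiniteCovers
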